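import Pool.Agent.R378.RepAvg
import Pool.Agent.Y774.KC.Top

/-!
# Few signings have a small mean value over blocks
-/

set_option autoImplicit false

namespace Run7.h715.Adv

open Finset Pool.Agent.R378 Pool.Agent.R378.Khin

theorem block_sum (m : ℕ) (D : ℝ) (hD : 0 < D) (hm : 1024 * D ^ 2 ≤ m) :
    ∑ x : Fin m → ℤˣ, (if |∑ i, ((x i : ℤ) : ℝ)| ≤ 16 * D then (1:ℝ) else 1 / 4) ≤
      55 / 64 * 2 ^ m := by
  classical
  have h1 := Pool.Agent.Y774.KC.small_sum m (16 * D) (by positivity) (by nlinarith)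
  rw [Nat.card_eq_fintype_card, Fintype.card_subtype] at h1
  have h2 : ∀ x : Fin m → ℤˣ, (if |∑ i, ((x i : ℤ) : ℝ)| ≤ 16 * D then (1:ℝ) else 1 / 4) =
      1 / 4 + 3 / 4 * (if |∑ i, ((x i : ℤ) : ℝ)| ≤ 16 * D then (1:ℝ) else 0) := by
    intro x
    split_ifs <;> norm_num
  simp_rw [h2]
  rw [Finset.sum_add_distrib, ← Finset.mul_sum, ← Finset.sum_filter, Finset.sum_const,
    Finset.sum_const, Finset.card_univ, nsmul_eq_mul, nsmul_eq_mul, mul_one]
  have h3 : (Fintype.card (Fin m → ℤˣ) : ℝ) = 2 ^ m := by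
    rw [Fintype.card_fun]
    simp
  rw [h3]
  linarith

theorem const_le : (55:ℝ) / 64 * Real.exp (Real.log 4 / 16) ≤ Real.exp (-(1 / 16)) := by
  have h1 : ((55:ℝ) / 64 * Real.exp (Real.log 4 / 16)) ^ 16 ≤ Real.exp (-(1 / 16)) ^ 16 := by
    rw [mul_pow, ← Real.exp_nat_mul, ← Real.exp_nat_mul]
    have h2 : ((16:ℕ):ℝ) * (Real.log 4 / 16) = Real.log 4 := by push_cast; ring
    have h3 : ((16:ℕ):ℝ) * (-(1 / 16)) = -1 := by push_cast; ring
    rw [h2, h3, Real.exp_log (by norm_num), Real.exp_neg]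
    have h4 := Real.exp_one_lt_d9
    have h5 : (2.7182818286:ℝ)⁻¹ ≤ (Real.exp 1)⁻¹ := inv_anti₀ (Real.exp_pos 1) h4.le
    refine le_trans ?_ h5
    norm_num
  exact le_of_pow_le_pow_left₀ (by norm_num) (Real.exp_pos _).le h1

theorem few_avg (M m : ℕ) (D : ℝ) (hD : 0 < D) (hm : 1024 * D ^ 2 ≤ m) :
    (Nat.card {χ : Fin (M * m) → ℤˣ // ∑ b, |S (Rep.B M m b) χ| ≤ M * D} : ℝ) ≤
      2 ^ (M * m) * Real.exp (-(M / 16)) := by
  classical
  set g : ℝ → ℝ := fun y => if |y| ≤ 16 * D then (1:ℝ) else 1 / 4 with hg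
  have hg0 : ∀ y, 0 < g y := by
    intro y
    rw [hg]
    simp only
    split_ifs <;> norm_num
  -- the sum over all signings
  have hS : ∀ (χ : Fin (M * m) → ℤˣ) (b : Fin M),
      S (Rep.B M m b) χ = ∑ l : Fin m, ((χ (finProdFinEquiv (b, l)) : ℤ) : ℝ) := by
    intro χ b
    unfold S Rep.B Rep.blk
    rw [Finset.sum_filter, ← Equiv.sum_comp finProdFinEquiv, Fintype.sum_prod_type]
    simp only [Equiv.symm_apply_apply]
    rw [Finset.sum_eq_single b]
    · simp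
    · intro c _ hc
      simp [hc]
    · simp
  have h1 : ∑ χ : Fin (M * m) → ℤˣ, ∏ b, g (S (Rep.B M m b) χ) =
      (∑ x : Fin m → ℤˣ, g (∑ i, ((x i : ℤ) : ℝ))) ^ M := by
    rw [Fintype.sum_pow]
    let e : (Fin (M * m) → ℤˣ) ≃ (Fin M → Fin m → ℤˣ) :=
      (Equiv.arrowCongr finProdFinEquiv.symm (Equiv.refl ℤˣ)).trans
        (Equiv.curry (Fin M) (Fin m) ℤˣ)
    rw [← Equiv.sum_comp e.symm]
    refine Finset.sum_congr rfl fun p _ => ?_
    refine Finset.prod_congr rfl fun b _ => ?_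
    congr 1
    rw [hS]
    refine Finset.sum_congr rfl fun l _ => ?_
    simp [e]
  have h2 : ∀ χ : Fin (M * m) → ℤˣ, ∑ b, |S (Rep.B M m b) χ| ≤ M * D →
      Real.exp (-(Real.log 4 / 16 * M)) ≤ ∏ b, g (S (Rep.B M m b) χ) := by
    intro χ hχ
    set T := univ.filter (fun b => ¬ |S (Rep.B M m b) χ| ≤ 16 * D) with hT
    have h3 : ∏ b, g (S (Rep.B M m b) χ) = (1 / 4) ^ T.card := by
      rw [hg]
      simp only
      rw [Finset.prod_ite, Finset.prod_const_one, one_mul, Finset.prod_const]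
    have h4 : (T.card : ℝ) * (16 * D) ≤ M * D := by
      refine le_trans ?_ hχ
      rw [← nsmul_eq_mul, ← Finset.sum_const]
      refine (Finset.sum_le_sum fun b hb => ?_).trans
        (Finset.sum_le_sum_of_subset_of_nonneg (Finset.subset_univ T)
          fun b _ _ => abs_nonneg (S (Rep.B M m b) χ))
      rw [hT, Finset.mem_filter, not_le] at hb
      exact hb.2.le
    have h5 : (T.card : ℝ) * 16 ≤ M := by
      have : (T.card : ℝ) * 16 * D ≤ M * D := by linarith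
      exact le_of_mul_le_mul_right this hD
    rw [h3]
    have h6 : ((1:ℝ) / 4) ^ T.card = Real.exp (-(Real.log 4 * T.card)) := by
      rw [← neg_mul, ← Real.log_inv, mul_comm, Real.exp_nat_mul, Real.exp_log (by norm_num)]
      norm_num
    rw [h6]
    apply Real.exp_le_exp.2
    have h7 : 0 ≤ Real.log 4 := Real.log_nonneg (by norm_num)
    nlinarith
  have h3 : (Nat.card {χ : Fin (M * m) → ℤˣ // ∑ b, |S (Rep.B M m b) χ| ≤ M * D} : ℝ) *
      Real.exp (-(Real.log 4 / 16 * M)) ≤ (55 / 64 * 2 ^ m) ^ M := by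
    rw [Nat.card_eq_fintype_card, Fintype.card_subtype, ← nsmul_eq_mul, ← Finset.sum_const]
    calc ∑ _χ ∈ univ.filter (fun χ : Fin (M * m) → ℤˣ => ∑ b, |S (Rep.B M m b) χ| ≤ M * D),
          Real.exp (-(Real.log 4 / 16 * M))
        ≤ ∑ χ ∈ univ.filter (fun χ : Fin (M * m) → ℤˣ => ∑ b, |S (Rep.B M m b) χ| ≤ M * D),
          ∏ b, g (S (Rep.B M m b) χ) :=
          Finset.sum_le_sum fun χ hχ => h2 χ (Finset.mem_filter.1 hχ).2
      _ ≤ ∑ χ : Fin (M * m) → ℤˣ, ∏ b, g (S (Rep.B M m b) χ) :=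
          Finset.sum_le_sum_of_subset_of_nonneg (Finset.filter_subset _ _)
            fun χ _ _ => Finset.prod_nonneg fun b _ => (hg0 _).le
      _ = (∑ x : Fin m → ℤˣ, g (∑ i, ((x i : ℤ) : ℝ))) ^ M := h1
      _ ≤ (55 / 64 * 2 ^ m) ^ M := by
          apply pow_le_pow_left₀ (Finset.sum_nonneg fun x _ => (hg0 _).le)
          exact block_sum m D hD hm
  have h4 : Real.exp (-(Real.log 4 / 16 * M)) * Real.exp (Real.log 4 / 16 * M) = 1 := by
    rw [← Real.exp_add]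
    simp
  have h5 := mul_le_mul_of_nonneg_right h3 (Real.exp_pos (Real.log 4 / 16 * M)).le
  rw [mul_assoc, h4, mul_one] at h5
  refine h5.trans (le_of_eq_of_le ?_ (mul_le_mul_of_nonneg_left
    (pow_le_pow_left₀ (by positivity) const_le M) (by positivity : (0:ℝ) ≤ 2 ^ (M * m)))
    |>.trans (le_of_eq ?_))
  · rw [mul_pow, mul_pow, ← pow_mul, ← Real.exp_nat_mul, mul_comm m M]
    have : (M:ℝ) * (Real.log 4 / 16) = Real.log 4 / 16 * M := mul_comm _ _
    rw [this]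
    ring
  · rw [← Real.exp_nat_mul]
    congr 2
    ring

end Run7.h715.Adv
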